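import Pool.Agent.W819.EN.Stm

set_option autoImplicit false

namespace Pool.Agent.W405.EN

open H974 Finset Filter Topology MeasureTheory Pool.Agent.W819.EN
open scoped Real

lemma okP2 : Ok P2 := fun _ => ⟨by norm_num, by norm_num⟩

/-- LDP: the exponential change of measure. -/
theorem t_LDP : Ldp := by
  intro S X s ν δ h L hh hL hδ
  have hpt : ∀ F, F ⊆ S → Real.exp (s * X F) ≤
      (Real.exp ((s + h) * X F) * Real.exp (-(h * (ν + δ) * L)) +
        Real.exp ((s - h) * X F) * Real.exp (h * (ν - δ) * L)) +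
        Real.exp ((s * ν + |s| * δ) * L) * ind (|X F - ν * L| ≤ δ * L) := by
    intro F _
    have p1 : 0 < Real.exp ((s + h) * X F) * Real.exp (-(h * (ν + δ) * L)) := by positivity
    have p2 : 0 < Real.exp ((s - h) * X F) * Real.exp (h * (ν - δ) * L) := by positivity
    by_cases h1 : |X F - ν * L| ≤ δ * L
    · rw [ind_of h1, mul_one]
      have h2 : Real.exp (s * X F) ≤ Real.exp ((s * ν + |s| * δ) * L) := by
        apply Real.exp_le_exp.mpr
        have h3 : s * (X F - ν * L) ≤ |s| * (δ * L) := by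
          calc s * (X F - ν * L) ≤ |s * (X F - ν * L)| := le_abs_self _
            _ = |s| * |X F - ν * L| := abs_mul _ _
            _ ≤ |s| * (δ * L) := mul_le_mul_of_nonneg_left h1 (abs_nonneg s)
        linarith
      linarith
    · rw [ind_not_of h1, mul_zero, add_zero]
      rw [not_le, lt_abs] at h1
      rcases h1 with h1 | h1
      · have h2 : Real.exp (s * X F) ≤
            Real.exp ((s + h) * X F) * Real.exp (-(h * (ν + δ) * L)) := by
          rw [← Real.exp_add]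
          apply Real.exp_le_exp.mpr
          nlinarith
        linarith
      · have h2 : Real.exp (s * X F) ≤
            Real.exp ((s - h) * X F) * Real.exp (h * (ν - δ) * L) := by
          rw [← Real.exp_add]
          apply Real.exp_le_exp.mpr
          nlinarith
        linarith
  have h1 := Ex_mono okP2 (S := S) hpt
  rw [Ex_add, Ex_add, Ex_mul_right, Ex_mul_right, Ex_mul_left] at h1
  unfold Pr
  linarith

/-- the moments of all the annuli -/
lemma moments {N : Finset Edg → Vtx → ℕ → ℕ → ℕ} (h1 : One N) (hN : Ann N) (u η : ℝ)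
    (hη : 0 < η) (J : ℕ) : ∃ c C : ℝ, 0 < c ∧ 0 < C ∧ ∀ b : ℕ, 4 ≤ b → ∀ j < J,
      c * (b : ℝ) ^ (Lam u - η) ≤ Ex P2 (bx (0, 0) (Rj b j))
        (fun F => Real.exp (u * N F (0, 0) (rj b j) (Rj b j))) ∧
      Ex P2 (bx (0, 0) (Rj b j)) (fun F => Real.exp (u * N F (0, 0) (rj b j) (Rj b j))) ≤
        C * (b : ℝ) ^ (Lam u + η) := by
  obtain ⟨C0, hC0, hC0'⟩ := h1 u η hη
  have hJ : (0 : ℝ) < (J : ℝ) + 1 := by positivity
  obtain ⟨C1, hC1, hC1'⟩ := (hN u).1 (η / (J + 1)) (by positivity)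
  obtain ⟨C2, hC2, hC2'⟩ := (hN u).2 (η / (J + 1)) (by positivity)
  set e : ℝ := η / (J + 1) with he
  have he0 : 0 < e := by positivity
  refine ⟨min (C0⁻¹ * 2 ^ (Lam u - η)) (C1⁻¹ * 2 ^ (Lam u) * 2 ^ (-e)),
    max (C0 * 2 ^ (Lam u + η)) (C2 * 2 ^ (Lam u) * 2 ^ e), ?_, ?_, ?_⟩
  · exact lt_min (by positivity) (by positivity)
  · exact lt_max_of_lt_left (by positivity)
  intro b hb j hj
  have hbR : (4 : ℝ) ≤ b := by exact_mod_cast hb
  have hb0 : (0 : ℝ) < b := by linarith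
  have hb1 : (1 : ℝ) ≤ b := by linarith
  rcases Nat.eq_zero_or_pos j with hj0 | hj0
  · subst hj0
    have e1 : rj b 0 = 0 := by simp [rj]
    have e2 : Rj b 0 = 2 * b := by simp [Rj]
    rw [e1, e2]
    obtain ⟨g1, g2⟩ := hC0' (2 * b) (by omega)
    have e3 : (((2 * b : ℕ) : ℝ)) = 2 * b := by push_cast; ring
    rw [e3, Real.mul_rpow (by norm_num) hb0.le] at g1 g2
    constructor
    · refine le_trans ?_ g1
      rw [← mul_assoc]
      exact mul_le_mul_of_nonneg_right (min_le_left _ _) (by positivity)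
    · refine g2.trans ?_
      rw [← mul_assoc]
      exact mul_le_mul_of_nonneg_right (le_max_left _ _) (by positivity)
  · have e1 : rj b j = 4 * b ^ j := by simp [rj, hj0.ne']
    have e2 : Rj b j = 2 * b ^ (j + 1) := rfl
    rw [e1, e2]
    have hbj : 1 ≤ b ^ j := Nat.one_le_pow _ _ (by omega)
    have h8 : 8 * b ^ j ≤ 2 * b ^ (j + 1) := by
      rw [pow_succ]
      have : b ^ j * 4 ≤ b ^ j * b := Nat.mul_le_mul_left _ hb
      omega
    have g1 := hC1' (b ^ j) (2 * b ^ (j + 1)) hbj h8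
    have g2 := hC2' (b ^ j) (2 * b ^ (j + 1)) hbj h8
    have e3 : (((2 * b ^ (j + 1) : ℕ) : ℝ)) / ((b ^ j : ℕ) : ℝ) = 2 * b := by
      push_cast
      field_simp
      rw [pow_succ]
    rw [e3] at g1 g2
    have e4 : (((2 * b ^ (j + 1) : ℕ) : ℝ)) = 2 * (b : ℝ) ^ ((j : ℝ) + 1) := by
      push_cast
      rw [Real.rpow_add hb0, Real.rpow_natCast, Real.rpow_one, pow_succ]
    rw [e4, Real.mul_rpow (by norm_num) hb0.le,
      Real.mul_rpow (by norm_num) (by positivity), ← Real.rpow_mul hb0.le] at g1 g2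
    have hje : ((j : ℝ) + 1) * e ≤ η := by
      have h5 : (j : ℝ) + 1 ≤ J + 1 := by
        have : (j : ℝ) ≤ J := by exact_mod_cast hj.le
        linarith
      calc ((j : ℝ) + 1) * e ≤ ((J : ℝ) + 1) * e := mul_le_mul_of_nonneg_right h5 he0.le
        _ = η := by rw [he]; field_simp
    constructor
    · refine le_trans ?_ g1
      have e5 : (b : ℝ) ^ (Lam u - η) ≤ (b : ℝ) ^ (Lam u) * (b : ℝ) ^ (((j : ℝ) + 1) * -e) := by
        rw [← Real.rpow_add hb0]
        exact Real.rpow_le_rpow_of_exponent_le hb1 (by linarith)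
      calc min (C0⁻¹ * 2 ^ (Lam u - η)) (C1⁻¹ * 2 ^ (Lam u) * 2 ^ (-e)) * (b : ℝ) ^ (Lam u - η)
          ≤ (C1⁻¹ * 2 ^ (Lam u) * 2 ^ (-e)) * ((b : ℝ) ^ (Lam u) *
            (b : ℝ) ^ (((j : ℝ) + 1) * -e)) :=
            mul_le_mul (min_le_right _ _) e5 (by positivity) (by positivity)
        _ = C1⁻¹ * (2 ^ (Lam u) * (b : ℝ) ^ (Lam u)) *
            (2 ^ (-e) * (b : ℝ) ^ (((j : ℝ) + 1) * -e)) := by ring
    · refine g2.trans ?_
      have e5 : (b : ℝ) ^ (Lam u) * (b : ℝ) ^ (((j : ℝ) + 1) * e) ≤ (b : ℝ) ^ (Lam u + η) := by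
        rw [← Real.rpow_add hb0]
        exact Real.rpow_le_rpow_of_exponent_le hb1 (by linarith)
      calc C2 * (2 ^ (Lam u) * (b : ℝ) ^ (Lam u)) * (2 ^ e * (b : ℝ) ^ (((j : ℝ) + 1) * e))
          = (C2 * 2 ^ (Lam u) * 2 ^ e) * ((b : ℝ) ^ (Lam u) *
            (b : ℝ) ^ (((j : ℝ) + 1) * e)) := by ring
        _ ≤ max (C0 * 2 ^ (Lam u + η)) (C2 * 2 ^ (Lam u) * 2 ^ e) * (b : ℝ) ^ (Lam u + η) :=
            mul_le_mul (le_max_right _ _) e5 (by positivity) (by positivity)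

/-- choice of the step `h` -/
lemma exists_h (hA : LegA) (s d : ℝ) (hd : 0 < d) : ∃ h : ℝ, 0 < h ∧
    Lam (s + h) - h * dL s ≤ Lam s + h * d / 4 ∧ Lam (s - h) + h * dL s ≤ Lam s + h * d / 4 := by
  have h1 := hA.der s
  rw [hasDerivAt_iff_isLittleO] at h1
  have h2 := h1.def (show 0 < d / 4 by positivity)
  rw [Metric.eventually_nhds_iff] at h2
  obtain ⟨ε, hε, h3⟩ := h2
  refine ⟨ε / 2, by positivity, ?_, ?_⟩
  · have h4 := h3 (y := s + ε / 2) (by rw [Real.dist_eq, add_sub_cancel_left, abs_of_pos] <;> linarith)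
    rw [Real.norm_eq_abs, Real.norm_eq_abs, add_sub_cancel_left,
      abs_of_pos (by positivity : 0 < ε / 2), smul_eq_mul] at h4
    have h5 := (abs_le.mp h4).2
    linarith
  · have h4 := h3 (y := s - ε / 2) (by
      rw [Real.dist_eq, abs_sub_comm, sub_sub_cancel, abs_of_pos] <;> linarith)
    have e1 : s - ε / 2 - s = -(ε / 2) := by ring
    rw [Real.norm_eq_abs, Real.norm_eq_abs, e1, abs_neg,
      abs_of_pos (by positivity : 0 < ε / 2), smul_eq_mul] at h4
    have h5 := (abs_le.mp h4).2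
    linarith

theorem t_DEV (hA : LegA) {N : Finset Edg → Vtx → ℕ → ℕ → ℕ} (_hG : Geo N) (h1 : One N)
    (hN : Ann N) : Dev N := by
  intro s δ ε J hδ hε
  set ν : ℝ := dL s with hν
  set d : ℝ := min δ (ε / (4 * (|s| + 1))) with hd
  have hs1 : 0 < 4 * (|s| + 1) := by positivity
  have hd0 : 0 < d := lt_min hδ (by positivity)
  have hdδ : d ≤ δ := min_le_left _ _
  have hsd : |s| * d ≤ ε / 4 := by
    have h2 : d ≤ ε / (4 * (|s| + 1)) := min_le_right _ _
    rw [le_div_iff₀ hs1] at h2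
    nlinarith [abs_nonneg s]
  obtain ⟨h, hh, hp, hm⟩ := exists_h hA s d hd0
  rw [← hν] at hp hm
  set η : ℝ := min (h * d / 8) (ε / 4) with hη
  have hη0 : 0 < η := lt_min (by positivity) (by positivity)
  have hη1 : η ≤ h * d / 8 := min_le_left _ _
  have hη2 : η ≤ ε / 4 := min_le_right _ _
  obtain ⟨c, C', hc, hC', hm0⟩ := moments h1 hN s η hη0 J
  obtain ⟨c1, C1, hc1, hC1, hm1⟩ := moments h1 hN (s + h) η hη0 J
  obtain ⟨c2, C2, hc2, hC2, hm2⟩ := moments h1 hN (s - h) η hη0 J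
  -- thresholds
  have ht1 : Tendsto (fun b : ℕ => (C1 + C2) * (b : ℝ) ^ (-(h * d / 2))) atTop (𝓝 ((C1 + C2) * 0)) :=
    ((tendsto_rpow_neg_atTop (by positivity : 0 < h * d / 2)).comp
      tendsto_natCast_atTop_atTop).const_mul _
  rw [mul_zero] at ht1
  have ht2 : Tendsto (fun b : ℕ => (b : ℝ) ^ (-(ε / 2))) atTop (𝓝 0) :=
    (tendsto_rpow_neg_atTop (by positivity : 0 < ε / 2)).comp tendsto_natCast_atTop_atTop
  have hev : ∀ᶠ b : ℕ in atTop, (C1 + C2) * (b : ℝ) ^ (-(h * d / 2)) < c / 2 ∧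
      (b : ℝ) ^ (-(ε / 2)) < c / 2 ∧ 4 ≤ b :=
    (ht1.eventually (gt_mem_nhds (by positivity))).and
      ((ht2.eventually (gt_mem_nhds (by positivity))).and (eventually_ge_atTop 4))
  obtain ⟨b0, hb0⟩ := eventually_atTop.mp hev
  refine ⟨b0, fun b hb j hj => ?_⟩
  obtain ⟨k1, k2, k3⟩ := hb0 b hb
  have hbR : (4 : ℝ) ≤ b := by exact_mod_cast k3
  have hbp : (0 : ℝ) < b := by linarith
  have hb1 : (1 : ℝ) ≤ b := by linarith
  have hL : 0 < Real.log b := Real.log_pos (by linarith)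
  have hexp : ∀ x : ℝ, Real.exp (x * Real.log b) = (b : ℝ) ^ x := by
    intro x
    rw [Real.rpow_def_of_pos hbp, mul_comm]
  set X : Finset Edg → ℝ := fun F => (N F (0, 0) (rj b j) (Rj b j) : ℝ) with hX
  have hldp := t_LDP (bx (0, 0) (Rj b j)) X s ν d h (Real.log b) hh hL hd0
  have a0 := (hm0 b k3 j hj).1
  have a1 := (hm1 b k3 j hj).2
  have a2 := (hm2 b k3 j hj).2
  have e1 : Real.exp (-(h * (ν + d) * Real.log b)) = (b : ℝ) ^ (-(h * (ν + d))) := by
    rw [← hexp]; congr 1; ring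
  rw [e1, hexp, hexp] at hldp
  -- the second term
  have t1 : Ex P2 (bx (0, 0) (Rj b j)) (fun F => Real.exp ((s + h) * X F)) *
      (b : ℝ) ^ (-(h * (ν + d))) ≤ C1 * (b : ℝ) ^ (Lam s - η + -(h * d / 2)) := by
    calc _ ≤ (C1 * (b : ℝ) ^ (Lam (s + h) + η)) * (b : ℝ) ^ (-(h * (ν + d))) :=
          mul_le_mul_of_nonneg_right a1 (by positivity)
      _ = C1 * (b : ℝ) ^ (Lam (s + h) + η + -(h * (ν + d))) := by
          rw [mul_assoc, ← Real.rpow_add hbp]
      _ ≤ C1 * (b : ℝ) ^ (Lam s - η + -(h * d / 2)) := by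
          apply mul_le_mul_of_nonneg_left _ hC1.le
          apply Real.rpow_le_rpow_of_exponent_le hb1
          nlinarith
  have t2 : Ex P2 (bx (0, 0) (Rj b j)) (fun F => Real.exp ((s - h) * X F)) *
      (b : ℝ) ^ (h * (ν - d)) ≤ C2 * (b : ℝ) ^ (Lam s - η + -(h * d / 2)) := by
    calc _ ≤ (C2 * (b : ℝ) ^ (Lam (s - h) + η)) * (b : ℝ) ^ (h * (ν - d)) :=
          mul_le_mul_of_nonneg_right a2 (by positivity)
      _ = C2 * (b : ℝ) ^ (Lam (s - h) + η + h * (ν - d)) := by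
          rw [mul_assoc, ← Real.rpow_add hbp]
      _ ≤ C2 * (b : ℝ) ^ (Lam s - η + -(h * d / 2)) := by
          apply mul_le_mul_of_nonneg_left _ hC2.le
          apply Real.rpow_le_rpow_of_exponent_le hb1
          nlinarith
  rw [Real.rpow_add hbp] at t1 t2
  set B : ℝ := (b : ℝ) ^ (Lam s - η) with hB
  have hB0 : 0 < B := by positivity
  set D : ℝ := (b : ℝ) ^ (-(h * d / 2)) with hD
  have low : c / 2 * B ≤ (b : ℝ) ^ (s * ν + |s| * d) *
      Pr P2 (bx (0, 0) (Rj b j)) (fun F => |X F - ν * Real.log b| ≤ d * Real.log b) := by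
    have h6 : (C1 + C2) * D * B ≤ c / 2 * B := mul_le_mul_of_nonneg_right k1.le hB0.le
    have a0' : c * B ≤ Ex P2 (bx (0, 0) (Rj b j)) (fun F => Real.exp (s * X F)) := a0
    have h7 : c * B - C1 * (B * D) - C2 * (B * D) ≤ (b : ℝ) ^ (s * ν + |s| * d) *
      Pr P2 (bx (0, 0) (Rj b j)) (fun F => |X F - ν * Real.log b| ≤ d * Real.log b) := by
      linarith
    nlinarith
  have hPmono : Pr P2 (bx (0, 0) (Rj b j)) (fun F => |X F - ν * Real.log b| ≤ d * Real.log b) ≤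
      Pr P2 (bx (0, 0) (Rj b j)) (fun F => |X F - ν * Real.log b| ≤ δ * Real.log b) :=
    Pr_mono okP2 fun F _ hF => hF.trans (mul_le_mul_of_nonneg_right hdδ hL.le)
  have hfin : (b : ℝ) ^ (-(gam s) - ε) ≤ c / 2 * B * (b : ℝ) ^ (-(s * ν + |s| * d)) := by
    have h8 : (b : ℝ) ^ (-(ε / 2)) * (b : ℝ) ^ (Lam s - η + -(s * ν + |s| * d)) ≤
        c / 2 * (b : ℝ) ^ (Lam s - η + -(s * ν + |s| * d)) :=
      mul_le_mul_of_nonneg_right k2.le (by positivity)
    calc (b : ℝ) ^ (-(gam s) - ε) ≤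
        (b : ℝ) ^ (-(ε / 2) + (Lam s - η + -(s * ν + |s| * d))) := by
          apply Real.rpow_le_rpow_of_exponent_le hb1
          unfold gam
          rw [← hν]
          linarith
      _ = (b : ℝ) ^ (-(ε / 2)) * (b : ℝ) ^ (Lam s - η + -(s * ν + |s| * d)) :=
          Real.rpow_add hbp _ _
      _ ≤ c / 2 * (b : ℝ) ^ (Lam s - η + -(s * ν + |s| * d)) := h8
      _ = c / 2 * B * (b : ℝ) ^ (-(s * ν + |s| * d)) := by
          rw [Real.rpow_add hbp, mul_assoc]
  have hinv : (b : ℝ) ^ (s * ν + |s| * d) * (b : ℝ) ^ (-(s * ν + |s| * d)) = 1 := by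
    rw [← Real.rpow_add hbp, add_neg_cancel, Real.rpow_zero]
  calc (b : ℝ) ^ (-(gam s) - ε) ≤ c / 2 * B * (b : ℝ) ^ (-(s * ν + |s| * d)) := hfin
    _ ≤ ((b : ℝ) ^ (s * ν + |s| * d) * Pr P2 (bx (0, 0) (Rj b j))
          (fun F => |X F - ν * Real.log b| ≤ d * Real.log b)) *
          (b : ℝ) ^ (-(s * ν + |s| * d)) :=
        mul_le_mul_of_nonneg_right low (by positivity)
    _ = Pr P2 (bx (0, 0) (Rj b j)) (fun F => |X F - ν * Real.log b| ≤ d * Real.log b) *
          ((b : ℝ) ^ (s * ν + |s| * d) * (b : ℝ) ^ (-(s * ν + |s| * d))) := by ring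
    _ = Pr P2 (bx (0, 0) (Rj b j)) (fun F => |X F - ν * Real.log b| ≤ d * Real.log b) := by
        rw [hinv, mul_one]
    _ ≤ _ := hPmono

end Pool.Agent.W405.EN
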